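import Mathlib
import Pool.Agent.H339R3.CE.Main

/-!
# Coarse embeddability into Hilbert space does not pull back along finite-to-one coarse maps

There are uniformly locally finite metric spaces `X` and `Y` and a map `X → Y` which is
`1`-Lipschitz and has fibres of at most two points, such that `Y` coarsely embeds into a Hilbert
space and `X` does not.

Construction.  Take finite graphs of uniformly bounded degree and uniform edge expansion without
even edge sets of size at most `m` (a random out-regular graph, after deletion of a few vertices),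
with the edges paired off by a bijection `J × Bool ≃ E`.  The component number `m` of `Y` is the
mod 2 homology cover (all pairs of a vertex and an edge set) and the component number `m` of `X` is
its double cover, whose deck group is the extraspecial group generated by the real Pauli matrices
`X_j, Z_j`, one for each edge.  The Hamming metric embeds `Y` into a Hilbert space.  A unit vector
of the irreducible representation of dimension `N = 2 ^ |J|` has ambiguity function of total mass
`N`; transporting it along an edge multiplies the coefficient of each Pauli operator by a sign,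
and all but `N / 2` of the resulting sign patterns are far from all cuts, hence have a signed
Cheeger gap.  So the twisted Laplacian has a uniform spectral gap, whereas the two points of a
fibre are at distance `m + 1`.
-/

set_option autoImplicit false

universe u

namespace Pool.Agent.Results.MP_2695c4_gt.FiniteToOneCounterexample

open Filter

/-- A metric space is uniformly locally finite if for every `r > 0` the closed balls of radius `r`
are finite with a common bound for the number of their points. -/
def UniformlyLocallyFinite (X : Type*) [MetricSpace X] : Prop :=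
  ∀ r : ℝ, 0 < r → ∃ N : ℕ, ∀ x : X, (Metric.closedBall x r).encard ≤ N

/-- Coarse maps. -/
def IsCoarseMap {X Y : Type*} [MetricSpace X] [MetricSpace Y] (f : X → Y) : Prop :=
  ∀ r : ℝ, 0 < r → ∃ s : ℝ, 0 < s ∧ ∀ x x' : X, dist x x' ≤ r → dist (f x) (f x') ≤ s

/-- Uniformly finite-to-one maps: the fibres are finite with a common bound for the number of their
points. -/
def IsUniformlyFiniteToOne {X Y : Type*} (f : X → Y) : Prop :=
  ∃ N : ℕ, ∀ y : Y, (f ⁻¹' {y}).encard ≤ N

/-- `g` is a coarse embedding into the normed space `H`: there are functions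
`ρ₋, ρ₊ : [0, ∞) → [0, ∞)` with `ρ₋ (t) → ∞` as `t → ∞` such that
`ρ₋ (d (x, x')) ≤ ‖g x - g x'‖ ≤ ρ₊ (d (x, x'))` for all `x, x'`. -/
def IsCoarseEmbedding {X H : Type*} [MetricSpace X] [NormedAddCommGroup H] (g : X → H) : Prop :=
  ∃ ρm ρp : NNReal → NNReal, Tendsto ρm atTop atTop ∧
    ∀ x x' : X, ρm (nndist x x') ≤ ‖g x - g x'‖₊ ∧ ‖g x - g x'‖₊ ≤ ρp (nndist x x')

/-- `X` coarsely embeds into a (real) Hilbert space of universe `u`. -/
def CoarselyEmbedsIntoHilbertSpace (X : Type) [MetricSpace X] : Prop :=
  ∃ (H : Type u) (_ : NormedAddCommGroup H) (_ : InnerProductSpace ℝ H) (_ : CompleteSpace H)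
    (g : X → H), IsCoarseEmbedding g

/-- There are uniformly locally finite metric spaces `X`, `Y` and a uniformly finite-to-one coarse
map `X → Y` such that `Y` coarsely embeds into a Hilbert space but `X` does not. -/
theorem result : ∃ (X Y : Type) (_ : MetricSpace X) (_ : MetricSpace Y) (f : X → Y),
    UniformlyLocallyFinite X ∧ UniformlyLocallyFinite Y ∧
    IsCoarseMap f ∧ IsUniformlyFiniteToOne f ∧
    CoarselyEmbedsIntoHilbertSpace.{0} Y ∧ ¬ CoarselyEmbedsIntoHilbertSpace.{u} X := by
  refine ⟨Pool.Agent.H339R3.CE.XS, Pool.Agent.H339R3.CE.YS, inferInstance, inferInstance,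
    Pool.Agent.H339R3.CE.pr, fun r _ => Pool.Agent.H339R3.CE.X_ulf r,
    fun r _ => Pool.Agent.H339R3.CE.Y_ulf r, ?_, ?_, ?_, ?_⟩
  · intro r hr
    exact ⟨r, hr, fun x x' h => le_trans (Pool.Agent.H339R3.CE.pr_lip x x') h⟩
  · exact ⟨2, fun y => Pool.Agent.H339R3.CE.pr_fib y⟩
  · refine ⟨Pool.Agent.H339R3.CE.HY, inferInstance, inferInstance, inferInstance,
      Pool.Agent.H339R3.CE.phi, NNReal.sqrt,
      fun t => (⌊(t : ℝ)⌋₊ : NNReal) + 2 * (Pool.Agent.H339R3.CE.cst ⌊(t : ℝ)⌋₊).toNNReal,
      ?_, ?_⟩
    · have h1 : Tendsto (fun t : NNReal => Real.sqrt (t : ℝ)) atTop atTop :=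
        Real.tendsto_sqrt_atTop.comp (NNReal.tendsto_coe_atTop.mpr tendsto_id)
      rw [← NNReal.tendsto_coe_atTop]
      refine h1.congr (fun t => ?_)
      rw [Real.coe_sqrt]
    · intro x x'
      constructor
      · rw [← NNReal.coe_le_coe, Real.coe_sqrt, coe_nndist, coe_nnnorm]
        exact Pool.Agent.H339R3.CE.phi_lower x x'
      · rw [← NNReal.coe_le_coe, coe_nnnorm]
        have h1 := Pool.Agent.H339R3.CE.phi_upper x x'
        show ‖_‖ ≤ (((⌊((nndist x x' : NNReal) : ℝ)⌋₊ : NNReal)
          + 2 * (Pool.Agent.H339R3.CE.cst ⌊((nndist x x' : NNReal) : ℝ)⌋₊).toNNReal : NNReal) : ℝ)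
        rw [coe_nndist]
        push_cast
        rw [Real.coe_toNNReal _ (Pool.Agent.H339R3.CE.cst_nonneg _)]
        exact h1
  · rintro ⟨H, i1, i2, _, g, ρm, ρp, hm, hg⟩
    refine Pool.Agent.H339R3.CE.X_not g (fun t => (ρm t.toNNReal : ℝ)) (fun t => (ρp t.toNNReal : ℝ))
      ?_ ?_ ?_
    · apply NNReal.tendsto_coe_atTop.mpr
      exact hm.comp tendsto_real_toNNReal_atTop
    · intro x x'
      have h := (hg x x').1
      rw [← NNReal.coe_le_coe, coe_nnnorm] at h
      have h2 : (dist x x').toNNReal = nndist x x' := by
        rw [← coe_nndist, Real.toNNReal_coe]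
      rw [h2]; exact h
    · intro x x'
      have h := (hg x x').2
      rw [← NNReal.coe_le_coe, coe_nnnorm] at h
      have h2 : (dist x x').toNNReal = nndist x x' := by
        rw [← coe_nndist, Real.toNNReal_coe]
      rw [h2]; exact h

end Pool.Agent.Results.MP_2695c4_gt.FiniteToOneCounterexample
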